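import Pool.Agent.Lib.MP_372cb0_nt.Irr

/-!
# MP_372cb0_nt: equal fractional parts of sums of `1 / π(T(i))`, short reduced blocks

Definitions (in `Pool/Agent/Lib/MP_372cb0_nt/Bas.lean` and `Red.lean`): `T x = x (x + 1) / 2`,
`u i = π(T(i))`, `S j k = ∑_{i = j}^{k} 1 / u i` (a rational number), `Cex j k s t`: `1 < j ≤ k`,
`j ≤ s ≤ t`, `(j, k) ≠ (s, t)` and `{S j k} = {S s t}`.  Cancelling the common indices leaves the
reduced blocks `[j, fin1 k s)` and `[ini2 k s, t]`, `fin1 k s = min s (k + 1)`,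
`ini2 k s = max s (k + 1)`; their lengths are `l` and `m` below.
-/

set_option autoImplicit false

namespace Pool.Agent.Results.MP_372cb0_nt.ShortBlocks

open Finset Filter Topology MP372cb0

/-- length of the first reduced block -/
def len1 (j k s : ℕ) : ℕ := fin1 k s - j

/-- length of the second reduced block -/
def len2 (k s t : ℕ) : ℕ := t + 1 - ini2 k s

/-- the number of primes in `(T(i), T(i+1)]` -/
def gapCount (i : ℕ) : ℕ := ((Finset.Ioc (T i) (T (i + 1))).filter Nat.Prime).card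

lemma no_prime_of_eq {a b : ℕ} (h : u a = u b) (_hab : a ≤ b) :
    ∀ p : ℕ, p.Prime → ¬ (T a < p ∧ p ≤ T b) := by
  intro p hp ⟨h1, h2⟩
  unfold u at h
  have h3 : Nat.primeCounting (T a) < Nat.primeCounting (T b) := by
    have e1 : Nat.primeCounting (T a) ≤ Nat.primeCounting (p - 1) :=
      Nat.monotone_primeCounting (by omega)
    have e2 : Nat.primeCounting p ≤ Nat.primeCounting (T b) := Nat.monotone_primeCounting h2
    have e3 : Nat.primeCounting (p - 1) < Nat.primeCounting p := by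
      rw [Nat.primeCounting, Nat.primeCounting, Nat.primeCounting',
        Nat.sub_add_cancel hp.one_lt.le, Nat.count_succ, if_pos hp]
      omega
    omega
  omega

lemma gapCount_eq (i : ℕ) : (gapCount i : ℝ) = (u (i + 1) : ℝ) - u i := by
  have h : u (i + 1) = u i + gapCount i := by
    unfold u gapCount
    rw [Nat.primeCounting, Nat.primeCounting', Nat.count_eq_card_filter_range,
      Nat.primeCounting, Nat.primeCounting', Nat.count_eq_card_filter_range,
      ← Finset.card_union_of_disjoint]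
    · congr 1
      ext p
      simp only [mem_filter, mem_range, mem_union, mem_Ioc]
      have := T_mono (Nat.le_succ i)
      simp only [Nat.succ_eq_add_one] at this
      constructor
      · rintro ⟨h1, h2⟩
        by_cases hp : p < T i + 1
        · exact Or.inl ⟨hp, h2⟩
        · exact Or.inr ⟨⟨by omega, by omega⟩, h2⟩
      · rintro (⟨h1, h2⟩ | ⟨⟨h1, h3⟩, h2⟩)
        · exact ⟨by omega, h2⟩
        · exact ⟨by omega, h2⟩
    · rw [Finset.disjoint_left]
      intro p h1 h2
      simp only [mem_filter, mem_range, mem_Ioc] at h1 h2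
      omega
  rw [h]; push_cast; ring

lemma u_eq_of_no_prime {a b : ℕ} (hab : a ≤ b) (h : ∀ p : ℕ, p.Prime → ¬ (T a < p ∧ p ≤ T b)) :
    u a = u b := by
  unfold u
  rw [Nat.primeCounting, Nat.primeCounting', Nat.count_eq_card_filter_range,
    Nat.primeCounting, Nat.primeCounting', Nat.count_eq_card_filter_range]
  congr 1
  ext p
  have := T_mono hab
  simp only [mem_filter, mem_range]
  constructor
  · rintro ⟨h1, h2⟩
    exact ⟨by omega, h2⟩
  · rintro ⟨h1, h2⟩
    refine ⟨?_, h2⟩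
    by_contra hc
    exact h p h2 ⟨by omega, by omega⟩

lemma sum_blk (a b : ℕ) : ∑ i ∈ Finset.Ico a b, u i = ∑ i ∈ range (b - a), u (a + i) :=
  Finset.sum_Ico_eq_sum_range _ _ _

/-- **Rigidity of the counterexamples with short reduced blocks, equivalence with primes in
triangular intervals, and irregular intervals.** -/
theorem result :
    -- (1) rigidity
    ∃ c : ℝ, 0 < c ∧
    (∃ j₀ : ℕ, ∀ j k s t : ℕ, j₀ ≤ j → Cex j k s t →
      (j < fin1 k s ∧ fin1 k s ≤ ini2 k s ∧ ini2 k s ≤ t ∧ len1 j k s ≤ len2 k s t) ∧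
      (len1 j k s = len2 k s t → ∀ p : ℕ, p.Prime → ¬ (T j < p ∧ p ≤ T t)) ∧
      ((len1 j k s : ℝ) ^ 2 * (len2 k s t : ℝ) ^ 3 ≤ c * Real.log j →
        len1 j k s ^ 2 * ∑ i ∈ Finset.Ico (ini2 k s) (t + 1), u i =
          len2 k s t ^ 2 * ∑ i ∈ Finset.Ico j (fin1 k s), u i ∧
        (len1 j k s = 1 → ∀ p : ℕ, p.Prime → ¬ (T (ini2 k s) < p ∧ p ≤ T t)))) ∧
    -- (2) one term against few terms, and equal lengths: equivalent to primes in the intervals
    ((∃ j₀ : ℕ, ∀ j k s t : ℕ, j₀ ≤ j → Cex j k s t →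
        ¬ (len1 j k s = len2 k s t ∨
          (len1 j k s = 1 ∧ (len2 k s t : ℝ) ^ 3 ≤ c * Real.log j))) ↔
      ∃ i₀ : ℕ, ∀ i : ℕ, i₀ ≤ i → ∃ p : ℕ, p.Prime ∧ T i < p ∧ p ≤ T (i + 1)) ∧
    -- (3) bounded lengths: an irregular interval
    (∀ M : ℕ, 1 ≤ M → ∃ j₀ : ℕ, ∀ j k s t : ℕ, j₀ ≤ j → Cex j k s t → len2 k s t ≤ M →
      ∃ i : ℕ, ((j ≤ i ∧ i + 1 < fin1 k s) ∨ (ini2 k s ≤ i ∧ i < t) ∨
          (len1 j k s = len2 k s t ∧ j ≤ i ∧ i < t)) ∧
        1 / (8 * (M : ℝ)) * ((i : ℝ) / (2 * Real.log i)) <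
          |(gapCount i : ℝ) - (i : ℝ) / (2 * Real.log i)|) := by
  obtain ⟨c, hc, N1, hN1, hrig⟩ := rigid
  obtain ⟨N2, hN2, hred⟩ := reduce
  have hA : ∀ j k s t : ℕ, max N1 N2 ≤ j → Cex j k s t →
      (j < fin1 k s ∧ fin1 k s ≤ ini2 k s ∧ ini2 k s ≤ t ∧ len1 j k s ≤ len2 k s t) ∧
      (len1 j k s = len2 k s t → ∀ p : ℕ, p.Prime → ¬ (T j < p ∧ p ≤ T t)) ∧
      ((len1 j k s : ℝ) ^ 2 * (len2 k s t : ℝ) ^ 3 ≤ c * Real.log j →
        len1 j k s ^ 2 * ∑ i ∈ Finset.Ico (ini2 k s) (t + 1), u i =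
          len2 k s t ^ 2 * ∑ i ∈ Finset.Ico j (fin1 k s), u i ∧
        (len1 j k s = 1 → ∀ p : ℕ, p.Prime → ¬ (T (ini2 k s) < p ∧ p ≤ T t))) := by
    intro j k s t hj h
    have hj1 : N1 ≤ j := le_trans (le_max_left _ _) hj
    have hj2 : N2 ≤ j := le_trans (le_max_right _ _) hj
    obtain ⟨h1, h2, h3, h4, h5⟩ := hred j k s t hj2 h
    refine ⟨⟨h1, h2, h3, h4⟩, ?_, ?_⟩
    · intro hl
      unfold len1 len2 at hl
      rw [← hl] at h5
      have h6 := equal_len (a := j) (b := ini2 k s) (n := fin1 k s - j) (by omega) (by omega)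
        (by omega) h5
      have h7 : ini2 k s + (fin1 k s - j) - 1 = t := by omega
      rw [h7] at h6
      exact no_prime_of_eq h6 (by omega)
    · intro hcond
      obtain ⟨h6, h7⟩ := hrig j (ini2 k s) (len1 j k s) (len2 k s t) hj1 (by omega)
        (by unfold len1; omega) h4 hcond h5
      refine ⟨?_, ?_⟩
      · rw [sum_blk, sum_blk]
        exact h6
      · intro hl
        rw [hl] at h7
        have hV1 : VV (fun i => (u (j + i) : ℝ)) 1 = 0 := by
          unfold VV; simp
        rw [hV1] at h7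
        have hV2 : VV (fun i => (u (ini2 k s + i) : ℝ)) (len2 k s t) = 0 := by
          simpa using h7
        have h8 := VV_eq_zero _ _ (by
          intro i _
          exact_mod_cast u_pos (by omega)) hV2 0 (by unfold len2; omega) (t - ini2 k s)
          (by unfold len2; omega)
        simp only [add_zero] at h8
        have h9 : ini2 k s + (t - ini2 k s) = t := by omega
        rw [h9] at h8
        exact no_prime_of_eq (by exact_mod_cast h8) h3
  refine ⟨c, hc, ⟨max N1 N2, hA⟩, ⟨?_, ?_⟩, ?_⟩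
  · -- (2), from the intervals
    rintro ⟨j₀, hj₀⟩
    refine ⟨max j₀ 2, fun i hi => ?_⟩
    by_contra hcon
    push Not at hcon
    have hui : u i = u (i + 1) :=
      u_eq_of_no_prime (by omega) (fun p hp h => absurd h.2 (by have := hcon p hp h.1; omega))
    have hC : Cex i i (i + 1) (i + 1) := by
      refine ⟨by omega, le_rfl, by omega, le_rfl, ?_, ?_⟩
      · intro h
        have := congrArg Prod.fst h
        simp at this
      · unfold S
        simp only [Finset.Icc_self, Finset.sum_singleton]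
        rw [hui]
    have h1 := hj₀ i i (i + 1) (i + 1) (by omega) hC
    apply h1
    left
    unfold len1 len2 fin1 ini2
    simp
  · rintro ⟨i₀, hi₀⟩
    refine ⟨max (max N1 N2) i₀, fun j k s t hj h hcon => ?_⟩
    obtain ⟨⟨h1, h2, h3, h4⟩, h5, h6⟩ := hA j k s t (le_trans (le_max_left _ _) hj) h
    have hji : i₀ ≤ j := le_trans (le_max_right _ _) hj
    rcases hcon with hcon | ⟨hcon, hcl⟩
    · obtain ⟨p, hp, hp1, hp2⟩ := hi₀ j hji
      exact h5 hcon p hp ⟨hp1, hp2.trans (T_mono (by omega))⟩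
    · by_cases hm : len2 k s t = 1
      · obtain ⟨p, hp, hp1, hp2⟩ := hi₀ j hji
        exact h5 (by omega) p hp ⟨hp1, hp2.trans (T_mono (by omega))⟩
      · obtain ⟨_, h7⟩ := h6 (by rw [hcon]; simpa using hcl)
        obtain ⟨p, hp, hp1, hp2⟩ := hi₀ (ini2 k s) (by omega)
        refine h7 hcon p hp ⟨hp1, hp2.trans (T_mono ?_)⟩
        have : len2 k s t ≠ 0 := by unfold len2; omega
        unfold len2 at hm this
        omega
  · intro M hM
    obtain ⟨N3, hN3, hirr⟩ := irregular M hM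
    refine ⟨max (max N1 N2) N3, fun j k s t hj h hlen => ?_⟩
    obtain ⟨⟨h1, h2, h3, h4⟩, h5, h6⟩ := hA j k s t (le_trans (le_max_left _ _) hj) h
    obtain ⟨_, _, _, _, h7⟩ := hred j k s t (le_trans (le_trans (le_max_right _ _)
      (le_max_left _ _)) hj) h
    have hjN : N3 ≤ j := le_trans (le_max_right _ _) hj
    rcases h4.eq_or_lt with heq | hlt
    · -- equal lengths
      have h8 := h5 heq
      refine ⟨j, Or.inr (Or.inr ⟨heq, le_rfl, by omega⟩), ?_⟩
      have h9 : gapCount j = 0 := by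
        unfold gapCount
        rw [Finset.card_eq_zero, Finset.filter_eq_empty_iff]
        intro p hp hpp
        rw [mem_Ioc] at hp
        exact h8 p hpp ⟨hp.1, hp.2.trans (T_mono (by omega))⟩
      have hj3 : (3 : ℝ) ≤ j := by exact_mod_cast (by omega : 3 ≤ j)
      have hl : 0 < Real.log (j : ℝ) := Real.log_pos (by linarith)
      have hr : 0 < (j : ℝ) / (2 * Real.log j) := by positivity
      have hM1 : (1 : ℝ) ≤ M := by exact_mod_cast hM
      rw [h9, Nat.cast_zero, zero_sub, abs_neg, abs_of_pos hr]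
      have : 1 / (8 * (M : ℝ)) < 1 := by
        rw [div_lt_one (by positivity)]; linarith
      nlinarith
    · have e1 : j + (fin1 k s - j) = fin1 k s := by omega
      have e2 : ini2 k s + (t + 1 - ini2 k s) = t + 1 := by omega
      obtain ⟨i, hi, hi2⟩ := hirr j (ini2 k s) (fin1 k s - j) (t + 1 - ini2 k s) hjN (by omega)
        (by omega) hlt hlen h7
      rw [e1, e2] at hi
      refine ⟨i, ?_, ?_⟩
      · rcases hi with hi | hi
        · exact Or.inl hi
        · exact Or.inr (Or.inl ⟨hi.1, by omega⟩)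
      · rw [gapCount_eq]
        exact hi2

end Pool.Agent.Results.MP_372cb0_nt.ShortBlocks
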